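import Pool.Agent.H43.TL2.M185
import Pool.Agent.H43.TL2.M189

/-!
# SR3 F Pot: the potential of a curve

The gradient of `log ‖F‖`: at a point `z` of depth `d`, with the nearest good point `a`, `h log ‖F‖ = ∑ b i lam i + O (1)` is `k y + O (d ^ γ)` on a disc of radius
comparable to `d` (`y` = the height over the line through `a`, `k ≥ A'` a constant), because the height of `z` is comparable to `d` (`lower`).
-/

set_option autoImplicit false

open Topology Filter Metric Laplacian InnerProductSpace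

noncomputable section

namespace Pool.Agent.SR3.F

open Pool.Agent.H36.BP (EN fs)
open Pool.Agent.H30M (gg)
open Pool.Agent.SDR (gc)
open Pool.Agent.SR3.G (Mem Str Facts TubeBd FirstP RigidF IsChain)
open Geo (Gd)

theorem gg_eq (u : ℂ → ℝ) (z : ℂ) : Pool.Agent.H30M.gg u u z = ‖gc u z‖ ^ 2 := by
  unfold Pool.Agent.H30M.gg gc
  rw [← Complex.normSq_eq_norm_sq, Complex.normSq_apply]
  simp

theorem pow_small {γ : ℝ} (hγ : γ < 1) (P : ℝ) {Q ε : ℝ} (hQ : 0 ≤ Q) (hε : 0 < ε) : ∃ κ : ℝ, ∀ d ≥ κ, P + Q * (2 + 2 * d) ^ γ ≤ ε * d := by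
  have ht : Tendsto (fun d : ℝ => 2 + 2 * d) atTop atTop := tendsto_atTop_add_const_left _ _ (tendsto_id.const_mul_atTop two_pos)
  have hc : 0 < ε / (8 * (Q + 1)) := by positivity
  have h1 : ∀ᶠ x : ℝ in atTop, x ^ γ ≤ ε / (8 * (Q + 1)) * x := by
    filter_upwards [(tendsto_rpow_neg_atTop (y := 1 - γ) (by linarith)).eventually (gt_mem_nhds hc), eventually_gt_atTop 0] with x hx hx0
    have h2 : x ^ γ = x ^ (-(1 - γ)) * x := by
      rw [← Real.rpow_add_one hx0.ne']
      congr 1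
      ring
    rw [h2]
    exact mul_le_mul_of_nonneg_right hx.le hx0.le
  have h3 := ht.eventually h1
  have h4 : ∀ᶠ d : ℝ in atTop, P + Q * (2 + 2 * d) ^ γ ≤ ε * d := by
    filter_upwards [h3, eventually_ge_atTop (1 : ℝ), eventually_ge_atTop (2 * P / ε)] with d hd hd1 hd2
    have h5 : (0 : ℝ) ≤ (2 + 2 * d) ^ γ := Real.rpow_nonneg (by linarith) _
    have h6 : P ≤ ε * d / 2 := by
      rw [div_le_iff₀ hε] at hd2
      linarith
    have h7 : Q * (2 + 2 * d) ^ γ ≤ Q * (ε / (8 * (Q + 1)) * (2 + 2 * d)) := mul_le_mul_of_nonneg_left hd hQ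
    have h8 : Q * (ε / (8 * (Q + 1)) * (2 + 2 * d)) ≤ ε * d / 2 := by
      have h9 : Q * (ε / (8 * (Q + 1)) * (2 + 2 * d)) = (Q / (Q + 1)) * (ε / 8 * (2 + 2 * d)) := by
        field_simp
      rw [h9]
      have h10 : Q / (Q + 1) ≤ 1 := (div_le_one (by linarith)).2 (by linarith)
      have h11 : 0 ≤ ε / 8 * (2 + 2 * d) := by positivity
      calc (Q / (Q + 1)) * (ε / 8 * (2 + 2 * d)) ≤ 1 * (ε / 8 * (2 + 2 * d)) := mul_le_mul_of_nonneg_right h10 h11
        _ ≤ ε * d / 2 := by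
          have k1 := mul_le_mul_of_nonneg_left hd1 hε.le
          linarith only [k1]
    linarith
  obtain ⟨κ, h⟩ := eventually_atTop.1 h4
  exact ⟨κ, h⟩

theorem yy_sub_le {u : ℂ} (hu : ‖u‖ = 1) (a w z : ℂ) : |yy u a w - yy u a z| ≤ ‖w - z‖ := by
  unfold yy
  rw [← Complex.sub_re]
  refine (Complex.abs_re_le_norm _).trans ?_
  rw [← mul_sub, norm_mul, norm_star, hu, one_mul]
  refine le_of_eq ?_
  congr 1
  ring

theorem gc_yy (u a z : ℂ) : gc (yy u a) z = star u := by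
  have h1 : AnalyticAt ℂ (fun w : ℂ => star u * (w - a)) z := by fun_prop
  have h2 := Pool.Agent.SDR.gc_re h1
  have h3 : deriv (fun w : ℂ => star u * (w - a)) z = star u := by
    have h4 : HasDerivAt (fun w : ℂ => star u * (w - a)) (star u * 1) z := ((hasDerivAt_id z).sub_const a).const_mul _
    rw [h4.deriv, mul_one]
  rw [h3] at h2
  exact h2

theorem harm_yy (u a z : ℂ) : HarmonicAt (yy u a) z := by
  have h1 : AnalyticAt ℂ (fun w : ℂ => star u * (w - a)) z := by fun_prop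
  exact h1.harmonicAt_re

theorem lin_sum {ι : Type} [Fintype ι] (b : ι → ℝ) (β β' : ι → ℝ) (u a w : ℂ) :
    ∑ i, b i * lin u a (β i) (β' i) w = lin u a (∑ i, b i * β i) (∑ i, b i * β' i) w := by
  unfold lin
  rw [Finset.sum_mul, Finset.sum_mul, ← Finset.sum_add_distrib]
  exact Finset.sum_congr rfl fun i _ => by ring

variable {N : ℕ} {G : Geo N} {T : Set (EN N)} {rho : EN N → ℝ} {M : ℕ} {c₀ C δ γ A' B : ℝ} {g : (ℂ → EN N) → ℂ → ℝ}

/-- the gradient of `log ‖F‖` -/
theorem pot_grad (S : Base G T rho M c₀ C δ g) (hs : Str G T rho δ γ A' B) :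
    ∃ κ c : ℝ, 1 ≤ κ ∧ 0 < c ∧ ∀ (q : G.J → ℂ) (F : ℂ → EN N), G.Cl T q F → ∀ z, κ ≤ infDist z (Gd rho δ F) →
      c ≤ ‖gc (fun w => Real.log ‖F w‖) z‖ := by
  have hG := S.ok
  obtain ⟨Bg, hBg, hgrow⟩ := growth S.ok S.met
  obtain ⟨cl, Bl, hcl, hlow⟩ := lower S
  obtain ⟨Bs, Rs, hBs, hRs, hspd⟩ := speed S
  obtain ⟨Bu, hBu, hup⟩ := lam_upperA S.ok
  obtain ⟨Cg, hCg, hgrad⟩ := Pool.Agent.SR3.BE.grad_est
  have hh : 1 ≤ G.h := hG.aff.pos ()
  have hh' : (1 : ℝ) ≤ G.h := by exact_mod_cast hh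
  have hh0 : (0 : ℝ) < G.h := by linarith
  have hA' := hs.A'_pos
  have hB := hs.B_pos
  have hγ0 := hs.γ_pos
  have hγ1 := hs.γ_lt
  set bs : ℝ := ∑ i, (G.b i : ℝ) with hbs
  have hbs0 : 0 ≤ bs := Finset.sum_nonneg fun _ _ => Nat.cast_nonneg _
  set Λ : ℝ := 2 * G.h * Bg + Bu + 3 * (bs * B) + 1 with hΛ
  have hΛ0 : 0 < Λ := by positivity
  set η : ℝ := min 1 (cl / (2 * Λ)) with hη
  have hη0 : 0 < η := lt_min one_pos (by positivity)
  have hη1 : η ≤ 1 := min_le_left _ _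
  have hηc : η ≤ cl / (2 * Λ) := min_le_right _ _
  obtain ⟨κ₁, hκ₁⟩ := pow_small hγ1 (Bl + Bu) (mul_nonneg hbs0 hB.le) (half_pos hcl)
  obtain ⟨κ₂, hκ₂⟩ := pow_small hγ1 (Cg * (4 / η) * Bu + 2 * Cg * Bs ^ 2 * η) (Q := Cg * (4 / η) * (bs * B)) (ε := A' / (2 * G.h)) (by positivity) (by positivity)
  refine ⟨max (max κ₁ κ₂) (max 1 (2 * Rs)), A' / (2 * G.h), (le_max_left _ _).trans (le_max_right _ _), by positivity, fun q F hF z hz => ?_⟩
  set d : ℝ := infDist z (Gd rho δ F) with hd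
  have hdκ₁ : κ₁ ≤ d := (le_max_left _ _).trans ((le_max_left _ _).trans hz)
  have hdκ₂ : κ₂ ≤ d := (le_max_right _ _).trans ((le_max_left _ _).trans hz)
  have hd1 : 1 ≤ d := (le_max_left _ _).trans ((le_max_right _ _).trans hz)
  have hdR : 2 * Rs ≤ d := (le_max_right _ _).trans ((le_max_right _ _).trans hz)
  have hne : (Gd rho δ F).Nonempty := by
    by_contra hne
    rw [Set.not_nonempty_iff_eq_empty] at hne
    rw [hd, hne, infDist_empty] at hd1
    linarith
  obtain ⟨a, ha, had⟩ := (gd_closed S.ok S.met hF).exists_infDist_eq_dist hne z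
  have hza : ‖z - a‖ = d := by rw [hd, had, dist_eq_norm]
  obtain ⟨u, β, β', ⟨hu, hβ, hfit⟩, hsum, hsum'⟩ := hs.fits q F hF a ha
  have hKmem : ∀ w, F w ∈ G.K := hF.ent.mem
  have hp : ∀ w, G.p (F w) = 1 := hF.nm
  set βs : ℝ := ∑ i, (G.b i : ℝ) * β i with hβs
  set βs' : ℝ := ∑ i, (G.b i : ℝ) * β' i with hβs'
  have hb1 : ∀ i, (1 : ℝ) ≤ G.b i := fun i => by exact_mod_cast hG.b_pos i
  have hβA : A' ≤ βs := hsum.trans (Finset.sum_le_sum fun i _ => le_mul_of_one_le_left (hβ i).1 (hb1 i))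
  have hβA' : A' ≤ βs' := hsum'.trans (Finset.sum_le_sum fun i _ => le_mul_of_one_le_left (hβ i).2 (hb1 i))
  -- the sum
  have hS : ∀ w, |∑ i, (G.b i : ℝ) * G.lam i (F w) - lin u a βs βs' w| ≤ bs * B * pw γ ‖w - a‖ := by
    intro w
    rw [hβs, hβs', ← lin_sum, ← Finset.sum_sub_distrib, hbs, Finset.sum_mul, Finset.sum_mul]
    refine (Finset.abs_sum_le_sum_abs _ _).trans (Finset.sum_le_sum fun i _ => ?_)
    rw [← mul_sub, abs_mul, Nat.abs_cast, mul_assoc]
    exact mul_le_mul_of_nonneg_left (hfit w (Set.mem_univ w) i) (Nat.cast_nonneg _)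
  -- upper bounds of the rates
  have hrate : ∀ s : ℝ, (s = 1 ∨ s = -1) → lin u a βs βs' (a + s * u) ≤ Λ - 1 := by
    intro s hs1
    have hsn : ‖a + s * u - a‖ = 1 := by
      rw [add_sub_cancel_left, norm_mul, hu, mul_one, Complex.norm_real, Real.norm_eq_abs]
      rcases hs1 with rfl | rfl <;> simp
    have h1 := hS (a + s * u)
    rw [hsn] at h1
    have h2 := (abs_le.1 h1).1
    have h3 := (hup _ (hKmem (a + s * u)) (hp _)).2.2
    have h4 := hgrow q F hF (a + s * u)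
    have h5 : infDist (a + s * u) (Gd rho δ F) ≤ 1 := by
      refine (infDist_le_dist_of_mem ha).trans (le_of_eq ?_)
      rw [dist_eq_norm, hsn]
    have h6 : Real.log ‖F (a + s * u)‖ ≤ 2 * Bg := h4.trans (by
      have k1 := mul_le_mul_of_nonneg_left h5 hBg
      linarith only [k1])
    have h7 : (G.h : ℝ) * Real.log ‖F (a + s * u)‖ ≤ 2 * G.h * Bg := by
      have k1 := mul_le_mul_of_nonneg_left h6 hh0.le
      linarith only [k1]
    have h8 : pw γ 1 ≤ 3 := by
      unfold pw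
      calc (2 + 1 : ℝ) ^ γ ≤ (2 + 1 : ℝ) ^ (1 : ℝ) := Real.rpow_le_rpow_of_exponent_le (by norm_num) hγ1.le
        _ = 3 := by norm_num
    have h9 : bs * B * pw γ 1 ≤ 3 * (bs * B) := by
      have k1 := mul_le_mul_of_nonneg_left h8 (mul_nonneg hbs0 hB.le)
      linarith only [k1]
    rw [hΛ]
    linarith
  have hyu : ∀ s : ℝ, yy u a (a + s * u) = s := by
    intro s
    unfold yy
    have h1 : star u * u = 1 := by
      show (starRingEnd ℂ) u * u = 1
      rw [← Complex.normSq_eq_conj_mul_self, Complex.normSq_eq_norm_sq, hu]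
      norm_num
    have h2 : star u * (a + s * u - a) = s * (star u * u) := by ring
    rw [h2, h1]
    simp
  have hβΛ : βs ≤ Λ - 1 := by
    have h1 := hrate 1 (Or.inl rfl)
    unfold lin at h1
    rw [hyu] at h1
    norm_num at h1
    exact h1
  have hβΛ' : βs' ≤ Λ - 1 := by
    have h1 := hrate (-1) (Or.inr rfl)
    unfold lin at h1
    rw [hyu] at h1
    norm_num at h1
    exact h1
  have hlinle : ∀ w, lin u a βs βs' w ≤ Λ * |yy u a w| := by
    intro w
    unfold lin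
    rcases le_total 0 (yy u a w) with h | h
    · rw [max_eq_left h, max_eq_right (by linarith), abs_of_nonneg h]
      have k1 := mul_le_mul_of_nonneg_right hβΛ h
      linarith only [k1, h]
    · rw [max_eq_right h, max_eq_left (by linarith), abs_of_nonpos h]
      have k1 := mul_le_mul_of_nonneg_right hβΛ' (neg_nonneg.2 h)
      linarith only [k1, h]
  -- the height of `z`
  have hyz : η * d ≤ |yy u a z| := by
    have h1 := hlow q F hF z
    have h2 := (hup _ (hKmem z) (hp z)).2.1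
    have h3 := (abs_le.1 (hS z)).2
    rw [hza] at h3
    have h4 := hlinle z
    have h5 := hκ₁ d hdκ₁
    have h6 : pw γ d ≤ (2 + 2 * d) ^ γ := Real.rpow_le_rpow (by linarith) (by linarith) hγ0.le
    have h7 : bs * B * pw γ d ≤ bs * B * (2 + 2 * d) ^ γ := mul_le_mul_of_nonneg_left h6 (mul_nonneg hbs0 hB.le)
    have h8 : (G.h : ℝ) * Real.log ‖F z‖ ≤ Λ * |yy u a z| + bs * B * (2 + 2 * d) ^ γ + Bu := by linarith
    have h9 : 0 ≤ Λ * |yy u a z| + bs * B * (2 + 2 * d) ^ γ + Bu := by positivity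
    have h10 : Real.log ‖F z‖ ≤ Λ * |yy u a z| + bs * B * (2 + 2 * d) ^ γ + Bu := by
      rcases le_total 0 (Real.log ‖F z‖) with h | h
      · have k1 := le_mul_of_one_le_left h hh'
        linarith only [k1, h8]
      · linarith
    have h11 : cl / 2 * d ≤ Λ * |yy u a z| := by linarith
    have h12 : η * d ≤ cl / (2 * Λ) * d := mul_le_mul_of_nonneg_right hηc (by linarith)
    refine h12.trans ?_
    have h13 : cl / (2 * Λ) * d = (cl / 2 * d) / Λ := by field_simp
    rw [h13, div_le_iff₀ hΛ0]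
    linarith
  set r : ℝ := η * d / 4 with hr
  have hr0 : 0 < r := by positivity
  have hrd : r ≤ d / 4 := by
    rw [hr]
    have : η * d ≤ 1 * d := mul_le_mul_of_nonneg_right hη1 (by linarith)
    linarith
  -- the slope
  obtain ⟨k, hkA, hk⟩ : ∃ k : ℝ, A' ≤ |k| ∧ ∀ w ∈ closedBall z r, lin u a βs βs' w = k * yy u a w := by
    rcases le_total 0 (yy u a z) with h | h
    · refine ⟨βs, hβA.trans (le_abs_self _), fun w hw => ?_⟩
      rw [mem_closedBall, dist_eq_norm] at hw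
      have h1 := (abs_le.1 ((yy_sub_le hu a w z).trans hw)).1
      rw [abs_of_nonneg h] at hyz
      have h2 : 0 ≤ yy u a w := by
        have : r ≤ η * d := by rw [hr]; linarith [mul_pos hη0 (by linarith : 0 < d)]
        linarith
      unfold lin
      rw [max_eq_left h2, max_eq_right (by linarith)]
      ring
    · refine ⟨-βs', by rw [abs_neg]; exact hβA'.trans (le_abs_self _), fun w hw => ?_⟩
      rw [mem_closedBall, dist_eq_norm] at hw
      have h1 := (abs_le.1 ((yy_sub_le hu a w z).trans hw)).2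
      rw [abs_of_nonpos h] at hyz
      have h2 : yy u a w ≤ 0 := by
        have : r ≤ η * d := by rw [hr]; linarith [mul_pos hη0 (by linarith : 0 < d)]
        linarith
      unfold lin
      rw [max_eq_right h2, max_eq_left (by linarith)]
      ring
  -- the function
  have hFd : Differentiable ℂ F := hF.ent.diff
  have hc2 : ∀ w, ContDiffAt ℝ 2 (fun w => Real.log ‖F w‖) w ∧ Δ (fun w => Real.log ‖F w‖) w = 2 * fs (F w) (deriv F w) ^ 2 :=
    fun w => ⟨(log_c2 (hFd.analyticAt w) (ne0 hG (hKmem w))).1, (log_c2 (hFd.analyticAt w) (ne0 hG (hKmem w))).2.1⟩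
  set f : ℂ → ℝ := fun w => Real.log ‖F w‖ - (k / G.h) * yy u a w with hf
  have hy2 : ∀ w, ContDiffAt ℝ 2 (fun w => (k / G.h) * yy u a w) w ∧ Δ (fun w => (k / G.h) * yy u a w) w = 0 := by
    intro w
    have h1 := harm_yy u a w
    refine ⟨contDiffAt_const.mul h1.1, ?_⟩
    have h2 := laplacian_smul (k / G.h : ℝ) h1.1
    rw [h1.2.self_of_nhds, Pi.zero_apply, smul_zero] at h2
    exact h2
  have hfΔ : ∀ w, Δ f w = 2 * fs (F w) (deriv F w) ^ 2 := by
    intro w
    have h1 := (hc2 w).1.laplacian_sub (hy2 w).1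
    rw [(hc2 w).2, (hy2 w).2, sub_zero] at h1
    exact h1
  have hest := hgrad f z r (8 * Bs ^ 2 / d ^ 2) (Bu + bs * B * (2 + 2 * d) ^ γ) hr0 (by positivity) (by positivity)
    (fun w _ => (hc2 w).1.sub (hy2 w).1) (fun w hw => ?_) (fun w hw => ?_)
  · have h1 : Cg * ((Bu + bs * B * (2 + 2 * d) ^ γ) / r + 8 * Bs ^ 2 / d ^ 2 * r) ≤ A' / (2 * G.h) := by
      have h2 := hκ₂ d hdκ₂
      have h3 : Cg * ((Bu + bs * B * (2 + 2 * d) ^ γ) / r + 8 * Bs ^ 2 / d ^ 2 * r) =
          (Cg * (4 / η) * Bu + 2 * Cg * Bs ^ 2 * η + Cg * (4 / η) * (bs * B) * (2 + 2 * d) ^ γ) / d := by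
        rw [hr]
        have : d ≠ 0 := by linarith
        field_simp
        ring
      rw [h3, div_le_iff₀ (by linarith)]
      exact h2
    have h2 : gc f z = gc (fun w => Real.log ‖F w‖) z - ((k / G.h : ℝ) : ℂ) * star u := by
      have e1 : DifferentiableAt ℝ (fun w => Real.log ‖F w‖) z := (hc2 z).1.differentiableAt two_ne_zero
      have e2 : DifferentiableAt ℝ (yy u a) z := (harm_yy u a z).1.differentiableAt two_ne_zero
      rw [hf, Pool.Agent.SDR.gc_sub e1 (e2.const_mul _), gc_const_mul e2, gc_yy]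
    have h3 : ‖((k / G.h : ℝ) : ℂ) * star u‖ = |k| / G.h := by
      rw [norm_mul, norm_star, hu, mul_one, Complex.norm_real, Real.norm_eq_abs, abs_div, abs_of_pos hh0]
    have h4 : A' / G.h ≤ |k| / G.h := div_le_div_of_nonneg_right hkA hh0.le
    have h5 : ‖((k / G.h : ℝ) : ℂ) * star u‖ ≤ ‖gc (fun w => Real.log ‖F w‖) z‖ + ‖gc f z‖ := by
      have : ((k / G.h : ℝ) : ℂ) * star u = gc (fun w => Real.log ‖F w‖) z - gc f z := by rw [h2]; ring
      rw [this]
      exact norm_sub_le _ _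
    have h6 : A' / G.h = A' / (2 * G.h) + A' / (2 * G.h) := by field_simp; ring
    linarith [hest.trans h1]
  · -- the Laplacian
    rw [mem_closedBall, dist_eq_norm] at hw
    have hdw : d / 2 ≤ infDist w (Gd rho δ F) := by
      have h1 : d ≤ infDist w (Gd rho δ F) + dist z w := infDist_le_infDist_add_dist
      rw [dist_eq_norm, norm_sub_rev] at h1
      linarith
    have h2 := hspd q F hF w (by linarith)
    have h3 : Bs / infDist w (Gd rho δ F) ≤ Bs / (d / 2) := div_le_div_of_nonneg_left hBs.le (by linarith) hdw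
    have h4 : fs (F w) (deriv F w) ≤ 2 * Bs / d := (h2.trans h3).trans (le_of_eq (by field_simp))
    have h5 : fs (F w) (deriv F w) ^ 2 ≤ (2 * Bs / d) ^ 2 := pow_le_pow_left₀ (Pool.Agent.H36.BP.fs_nonneg _ _) h4 2
    rw [hfΔ, abs_of_nonneg (by positivity)]
    calc 2 * fs (F w) (deriv F w) ^ 2 ≤ 2 * (2 * Bs / d) ^ 2 := by linarith
      _ = 8 * Bs ^ 2 / d ^ 2 := by ring
  · -- the values
    have h1 := hS w
    rw [hk w hw] at h1
    rw [mem_closedBall, dist_eq_norm] at hw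
    have h2 : ‖w - a‖ ≤ 2 * d := by
      have : w - a = (w - z) + (z - a) := by ring
      rw [this]
      refine (norm_add_le _ _).trans ?_
      rw [hza]
      linarith
    have h3 : pw γ ‖w - a‖ ≤ (2 + 2 * d) ^ γ := Real.rpow_le_rpow (by positivity) (by linarith) hγ0.le
    have h4 : bs * B * pw γ ‖w - a‖ ≤ bs * B * (2 + 2 * d) ^ γ := mul_le_mul_of_nonneg_left h3 (mul_nonneg hbs0 hB.le)
    have h5 := (hup _ (hKmem w) (hp w)).2
    have h6 : f w = (G.h * Real.log ‖F w‖ - k * yy u a w) / G.h := by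
      rw [hf]
      field_simp
    rw [h6, abs_div, abs_of_pos hh0]
    refine (div_le_self (abs_nonneg _) hh').trans ?_
    have h7 := abs_le.1 h1
    rw [abs_le]
    constructor <;> linarith [h7.1, h7.2, h5.1, h5.2]

/-- MODULE Pot. -/
theorem exists_pot (S : Base G T rho M c₀ C δ g) (hs : Str G T rho δ γ A' B) :
    ∃ κ c B₁ c₁ : ℝ, 1 ≤ κ ∧ 0 < c ∧ 1 ≤ B₁ ∧ 0 ≤ c₁ ∧ ∀ (q : G.J → ℂ) (F : ℂ → EN N), G.Cl T q F →
      Pot (fun z => Real.log ‖F z‖ + c₁) (fun z => infDist z (Gd rho δ F)) κ c B₁ := by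
  have hG := S.ok
  obtain ⟨κ, c, hκ, hc, hgr⟩ := pot_grad S hs
  obtain ⟨Bg, hBg, hgrow⟩ := growth S.ok S.met
  obtain ⟨cl, Bl, hcl, hlow⟩ := lower S
  obtain ⟨Bs, Rs, hBs, hRs, hspd⟩ := speed S
  obtain ⟨B₀, hB₀, hll⟩ := log_lower S.ok
  set c₁ : ℝ := 1 + B₀ + |Bl| with hc₁
  have hc₁0 : 0 ≤ c₁ := by positivity
  refine ⟨max κ Rs, min cl (c ^ 2), max (1 + Bg + c₁) (2 * Bs ^ 2), c₁, hκ.trans (le_max_left _ _), lt_min hcl (by positivity),
    (by linarith : (1 : ℝ) ≤ 1 + Bg + c₁).trans (le_max_left _ _), hc₁0, fun q F hF => ?_⟩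
  have hKmem : ∀ w, F w ∈ G.K := hF.ent.mem
  have hFd : Differentiable ℂ F := hF.ent.diff
  have hc2 : ∀ w, ContDiffAt ℝ 2 (fun w => Real.log ‖F w‖) w ∧ Δ (fun w => Real.log ‖F w‖) w = 2 * fs (F w) (deriv F w) ^ 2 :=
    fun w => ⟨(log_c2 (hFd.analyticAt w) (ne0 hG (hKmem w))).1, (log_c2 (hFd.analyticAt w) (ne0 hG (hKmem w))).2.1⟩
  have hlip : ∀ z w, infDist z (Gd rho δ F) - infDist w (Gd rho δ F) ≤ ‖z - w‖ := fun z w => by
    have h1 : infDist z (Gd rho δ F) ≤ infDist w (Gd rho δ F) + dist z w := infDist_le_infDist_add_dist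
    rw [dist_eq_norm] at h1
    linarith
  constructor
  · exact contDiff_iff_contDiffAt.2 fun w => (hc2 w).1.add contDiffAt_const
  · intro z
    have h1 := hll _ (hF.nm z)
    show 1 ≤ Real.log ‖F z‖ + c₁
    rw [hc₁]
    linarith [abs_nonneg Bl]
  · exact fun z => infDist_nonneg
  · intro z w
    rw [abs_le]
    constructor
    · have := hlip w z
      rw [norm_sub_rev] at this
      linarith
    · exact hlip z w
  · intro z
    have h1 := hgrow q F hF z
    have h2 : 0 ≤ infDist z (Gd rho δ F) := infDist_nonneg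
    calc Real.log ‖F z‖ + c₁ ≤ Bg * (1 + infDist z (Gd rho δ F)) + c₁ := by linarith
      _ ≤ (1 + Bg + c₁) * (1 + infDist z (Gd rho δ F)) := by
        have k1 := mul_nonneg hc₁0 h2
        linarith only [k1, h2]
      _ ≤ max (1 + Bg + c₁) (2 * Bs ^ 2) * (1 + infDist z (Gd rho δ F)) := mul_le_mul_of_nonneg_right (le_max_left _ _) (by linarith)
  · intro z hz
    have h1 := hlow q F hF z
    have h2 : 0 ≤ infDist z (Gd rho δ F) := infDist_nonneg
    have h3 : min cl (c ^ 2) * infDist z (Gd rho δ F) ≤ cl * infDist z (Gd rho δ F) := mul_le_mul_of_nonneg_right (min_le_left _ _) h2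
    show min cl (c ^ 2) * infDist z (Gd rho δ F) ≤ Real.log ‖F z‖ + c₁
    rw [hc₁]
    linarith [le_abs_self Bl]
  · intro z hz
    have hzR : Rs ≤ infDist z (Gd rho δ F) := (le_max_right _ _).trans hz
    have hz0 : 0 < infDist z (Gd rho δ F) := hRs.trans_le hzR
    have h1 : Δ (fun z => Real.log ‖F z‖ + c₁) z = 2 * fs (F z) (deriv F z) ^ 2 := by
      have h2 := (hc2 z).1.laplacian_add (contDiffAt_const (c := c₁))
      rw [(hc2 z).2] at h2
      have h3 : Δ (fun _ : ℂ => c₁) z = 0 := by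
        rw [InnerProductSpace.laplacian_const]
        rfl
      rw [h3, add_zero] at h2
      exact h2
    have h4 := hspd q F hF z hzR
    have h5 : fs (F z) (deriv F z) ^ 2 ≤ (Bs / infDist z (Gd rho δ F)) ^ 2 := pow_le_pow_left₀ (Pool.Agent.H36.BP.fs_nonneg _ _) h4 2
    show Δ (fun z => Real.log ‖F z‖ + c₁) z ≤ _
    rw [h1]
    calc 2 * fs (F z) (deriv F z) ^ 2 ≤ 2 * (Bs / infDist z (Gd rho δ F)) ^ 2 := by linarith
      _ = 2 * Bs ^ 2 / infDist z (Gd rho δ F) ^ 2 := by ring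
      _ ≤ max (1 + Bg + c₁) (2 * Bs ^ 2) / infDist z (Gd rho δ F) ^ 2 := div_le_div_of_nonneg_right (le_max_right _ _) (by positivity)
  · intro z hz
    have h1 := hgr q F hF z ((le_max_left _ _).trans hz)
    show min cl (c ^ 2) ≤ Pool.Agent.H30M.gg (fun z => Real.log ‖F z‖ + c₁) (fun z => Real.log ‖F z‖ + c₁) z
    have h2 : gc (fun z => Real.log ‖F z‖ + c₁) z = gc (fun z => Real.log ‖F z‖) z := by
      unfold gc
      rw [fderiv_add_const]
    rw [gg_eq, h2]
    exact (min_le_right _ _).trans (pow_le_pow_left₀ hc.le h1 2)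

end Pool.Agent.SR3.F
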