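import Pool.Agent.H43.TL2.M190
import Pool.Agent.H43.TL2.SR3.F.Pot

/-!
# SR3 F First: from the chain to the real axis
-/

set_option autoImplicit false
set_option linter.unusedSectionVars false

open Topology Filter Metric Laplacian InnerProductSpace

noncomputable section

namespace Pool.Agent.SR3.F

open Pool.Agent.H36.BP (EN fs)
open Pool.Agent.SR3.G (Mem Str Facts TubeBd FirstP RigidF IsChain)
open Geo (Gd)

variable {N : ℕ} {G : Geo N} {T : Set (EN N)} {rho : EN N → ℝ} {M : ℕ} {c₀ C δ γ A' B : ℝ} {g : (ℂ → EN N) → ℂ → ℝ}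

/-- the arithmetic at one large point -/
private theorem first_arith {c₄ K Q₁ D₁ : ℝ} (hc : 0 < c₄) (hK : 0 ≤ K) (hQ : 0 ≤ Q₁) (hD : 0 ≤ D₁) {γ : ℝ} (hγ1 : γ < 1) :
    ∀ᶠ x : ℝ in atTop, -(c₄ * (x / Real.log (2 + x))) + K * (c₄ * (x / Real.log (2 + x)) + Q₁ * (x / 4)) * (1 + D₁ * Pool.Agent.SR3.G.pw γ x) / (x / 4) ≤
      -(c₄ / 2 * (x / Real.log (2 + x))) := by
  set K₂ : ℝ := K * (4 * c₄ / Real.log 2 + Q₁) with hK2
  have hl2 : 0 < Real.log 2 := Real.log_pos (by norm_num)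
  have hK2' : 0 ≤ K₂ := mul_nonneg hK (add_nonneg (div_nonneg (by positivity) hl2.le) hQ)
  have hpos : 0 < 4 * (K₂ * D₁ + 1) := by positivity
  have h1 := Pool.Agent.SR3.G.eventually_pw_le (ε := c₄ / (4 * (K₂ * D₁ + 1))) hγ1 (by positivity)
  have h2 := (Pool.Agent.SR3.G.tendsto_div_log).eventually (eventually_ge_atTop (4 * K₂ / c₄))
  filter_upwards [h1, h2, eventually_ge_atTop 1] with x hx1 hx2 hx3
  have hx0 : 0 < x := by linarith
  have hl : Real.log 2 ≤ Real.log (2 + x) := Real.log_le_log (by norm_num) (by linarith)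
  have hl' : 0 < Real.log (2 + x) := hl2.trans_le hl
  set y := x / Real.log (2 + x) with hy
  have hy0 : 0 < y := div_pos hx0 hl'
  have hyx : y ≤ x / Real.log 2 := div_le_div_of_nonneg_left hx0.le hl2 hl
  have hpw : 0 ≤ Pool.Agent.SR3.G.pw γ x := Real.rpow_nonneg (by linarith) _
  have h3 : K * (c₄ * y + Q₁ * (x / 4)) / (x / 4) ≤ K₂ := by
    rw [div_le_iff₀ (by linarith), hK2]
    have h4 : c₄ * y ≤ 4 * c₄ / Real.log 2 * (x / 4) := by
      calc c₄ * y ≤ c₄ * (x / Real.log 2) := mul_le_mul_of_nonneg_left hyx hc.le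
        _ = 4 * c₄ / Real.log 2 * (x / 4) := by ring
    calc K * (c₄ * y + Q₁ * (x / 4)) = K * (c₄ * y) + K * (Q₁ * (x / 4)) := by ring
      _ ≤ K * (4 * c₄ / Real.log 2 * (x / 4)) + K * (Q₁ * (x / 4)) := by linarith [mul_le_mul_of_nonneg_left h4 hK]
      _ = _ := by ring
  have h5 : K * (c₄ * y + Q₁ * (x / 4)) * (1 + D₁ * Pool.Agent.SR3.G.pw γ x) / (x / 4) = K * (c₄ * y + Q₁ * (x / 4)) / (x / 4) * (1 + D₁ * Pool.Agent.SR3.G.pw γ x) := by ring
  have h6 : 0 ≤ 1 + D₁ * Pool.Agent.SR3.G.pw γ x := by positivity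
  have h7 : K * (c₄ * y + Q₁ * (x / 4)) * (1 + D₁ * Pool.Agent.SR3.G.pw γ x) / (x / 4) ≤ K₂ * (1 + D₁ * Pool.Agent.SR3.G.pw γ x) := by
    rw [h5]
    exact mul_le_mul_of_nonneg_right h3 h6
  have h8 : K₂ ≤ c₄ / 4 * y := by
    rw [div_le_iff₀ hc] at hx2
    linarith
  have h9 : K₂ * D₁ * Pool.Agent.SR3.G.pw γ x ≤ c₄ / 4 * y := by
    have h10 : K₂ * D₁ * Pool.Agent.SR3.G.pw γ x ≤ (K₂ * D₁ + 1) * (c₄ / (4 * (K₂ * D₁ + 1)) * y) :=
      mul_le_mul (by linarith) hx1 hpw (by positivity)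
    have h11 : (K₂ * D₁ + 1) * (c₄ / (4 * (K₂ * D₁ + 1)) * y) = c₄ / 4 * y := by
      field_simp
    rw [h11] at h10
    exact h10
  have h12 : K₂ * (1 + D₁ * Pool.Agent.SR3.G.pw γ x) = K₂ + K₂ * D₁ * Pool.Agent.SR3.G.pw γ x := by ring
  linarith

/-- MODULE First (**F2**).  `pass` with `a = x`, `R = x / 4` and `m = c₁ x / log (2 + x)`; `mem_log`, `tube_cover`. -/
theorem first_p (S : Base G T rho M c₀ C δ g) (hf : Facts G T rho δ γ A' B) : FirstP G T rho δ γ A' B := by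
  intro q β β' M₀ L
  obtain ⟨κ, c₂, B₁, c₁, hκ, hc₂, hB₁, hc₁, hpot⟩ := exists_pot S hf.str
  obtain ⟨κ', K, hκκ, hK, hpass⟩ := pass (V := EN N) hκ hc₂ hB₁
  obtain ⟨r₀, C₀, hC₀, htube⟩ := Pool.Agent.SR3.G.tube_cover S.ok hf β β' M₀ L κ'
  refine ⟨max r₀ 0, fun r hr F H z c C hF hH hz hc hch => ?_⟩
  have hr0 : r₀ ≤ r := (le_max_left _ _).trans hr
  have hr00 : 0 ≤ r := (le_max_right _ _).trans hr
  have hF0 : ‖F 0‖ ≤ M₀ := by
    have h1 := hz.good 0
    rwa [hz.zero] at h1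
  have hH0 : ‖H 0‖ ≤ M₀ + Real.exp C := by
    have h1 := hch 0 0 (by simpa using hr00)
    simp only [Nat.cast_zero, Int.cast_zero, hz.zero, add_zero, zero_div, mul_zero, sub_zero] at h1
    calc ‖H 0‖ = ‖F 0 + (H 0 - F 0)‖ := by rw [add_sub_cancel]
      _ ≤ ‖F 0‖ + ‖H 0 - F 0‖ := norm_add_le _ _
      _ ≤ _ := add_le_add hF0 h1
  obtain ⟨c₃, C₃, hc₃, hC₃, hlog⟩ := Pool.Agent.SR3.G.mem_log S.ok hf β β' (M₀ + Real.exp C)
  have hlogF := hlog q F hF (hF0.trans (by linarith [Real.exp_pos C]))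
  have hlogH := hlog q H hH hH0
  obtain ⟨c₅, B₂, hc₅, hlow⟩ := hf.lower
  have hlowF := hlow q F hF.cl
  have hγ0 : 0 < γ := hf.str.γ_pos
  have hγ1 : γ < 1 := hf.str.γ_lt
  have hpw1 : ∀ x : ℝ, 0 ≤ x → 1 ≤ Pool.Agent.SR3.G.pw γ x := fun x hx => Real.one_le_rpow (by linarith) hγ0.le
  have hpwle : ∀ x : ℝ, 0 ≤ x → Pool.Agent.SR3.G.pw γ x ≤ 2 + x := fun x hx => by
    unfold Pool.Agent.SR3.G.pw
    calc (2 + x) ^ γ ≤ (2 + x) ^ (1 : ℝ) := Real.rpow_le_rpow_of_exponent_le (by linarith) hγ1.le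
      _ = 2 + x := Real.rpow_one _
  -- the distance of a real point to the good set
  set D₁ : ℝ := (C₃ + |B₂|) / c₅ with hD1
  have hD1' : 0 ≤ D₁ := by positivity
  have hdist : ∀ x : ℝ, 0 ≤ x → infDist (x : ℂ) (Gd rho δ F) ≤ D₁ * Pool.Agent.SR3.G.pw γ x := by
    intro x hx
    have h1 := hlowF (x : ℂ)
    have h2 := (hlogF (x : ℂ)).2
    rw [Complex.ofReal_im, abs_zero, zero_add, Complex.norm_real, Real.norm_of_nonneg hx] at h2
    rw [hD1, div_mul_eq_mul_div, le_div_iff₀ hc₅]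
    have h3 := le_abs_self B₂
    have h4 : |B₂| ≤ |B₂| * Pool.Agent.SR3.G.pw γ x := le_mul_of_one_le_right (abs_nonneg _) (hpw1 x hx)
    nlinarith
  -- the bound of the two curves
  have hle : ∀ {F' : ℂ → EN N}, (∀ y : ℂ, Real.log ‖F' y‖ ≤ C₃ * (|y.im| + Pool.Agent.SR3.G.pw γ ‖y‖)) → ∀ x : ℝ, 4 ≤ x → ∀ y ∈ closedBall (x : ℂ) (x / 4),
      ‖F' y‖ ≤ Real.exp (8 * C₃ * (x / 4)) := by
    intro F' hF' x hx y hy
    rw [mem_closedBall, dist_eq_norm] at hy
    have h1 : |y.im| ≤ x / 4 := by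
      have h2 := Complex.abs_im_le_norm (y - x)
      rw [Complex.sub_im, Complex.ofReal_im, sub_zero] at h2
      exact h2.trans hy
    have h2 : ‖y‖ ≤ x + x / 4 := by
      have h3 := norm_add_le (y - x) (x : ℂ)
      rw [sub_add_cancel, Complex.norm_real, Real.norm_of_nonneg (by linarith)] at h3
      linarith
    have h3 := hpwle ‖y‖ (norm_nonneg y)
    have h4 : Real.log ‖F' y‖ ≤ 8 * C₃ * (x / 4) := by
      refine (hF' y).trans ?_
      have h5 : |y.im| + Pool.Agent.SR3.G.pw γ ‖y‖ ≤ 8 * (x / 4) := by linarith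
      calc C₃ * (|y.im| + Pool.Agent.SR3.G.pw γ ‖y‖) ≤ C₃ * (8 * (x / 4)) := mul_le_mul_of_nonneg_left h5 hC₃
        _ = _ := by ring
    rcases (norm_nonneg (F' y)).eq_or_lt with h5 | h5
    · rw [← h5]
      exact (Real.exp_pos _).le
    · rwa [← Real.log_le_iff_le_exp h5]
  have hHd := hH.cl.ent.diff
  have hFd := hF.cl.ent.diff
  set U : ℂ → EN N := fun y => H y - F y with hU
  have hUd : Differentiable ℂ U := hHd.sub hFd
  set Q₁ : ℝ := 1 + 8 * C₃ with hQ1
  have hQ10 : 0 ≤ Q₁ := by positivity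
  have hUle : ∀ x : ℝ, 4 ≤ x → ∀ y ∈ closedBall (x : ℂ) (x / 4), ‖U y‖ ≤ Real.exp (Q₁ * (x / 4)) := by
    intro x hx y hy
    have h1 := hle (fun y => (hlogF y).2) x hx y hy
    have h2 := hle (fun y => (hlogH y).2) x hx y hy
    have h3 : (2 : ℝ) ≤ Real.exp (x / 4) := by
      have h4 := Real.add_one_le_exp (x / 4)
      linarith
    calc ‖U y‖ ≤ ‖H y‖ + ‖F y‖ := norm_sub_le _ _
      _ ≤ 2 * Real.exp (8 * C₃ * (x / 4)) := by linarith
      _ ≤ Real.exp (x / 4) * Real.exp (8 * C₃ * (x / 4)) := mul_le_mul_of_nonneg_right h3 (Real.exp_pos _).le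
      _ = Real.exp (Q₁ * (x / 4)) := by rw [← Real.exp_add, hQ1]; congr 1; ring
  -- the bound near the good points
  set C₆ : ℝ := C₀ + 1 with hC6
  have hC60 : 0 < C₆ := by linarith
  set c₄ : ℝ := c / (16 * C₆) with hc4
  have hc40 : 0 < c₄ := by positivity
  have hsmall : ∀ᶠ x : ℝ in atTop, ∀ y ∈ closedBall (x : ℂ) (x / 4), infDist y (Gd rho δ F) ≤ κ' → ‖U y‖ ≤ Real.exp (-(c₄ * (x / Real.log (2 + x)))) := by
    have e1 := (Pool.Agent.SR3.G.tendsto_div_log).eventually (eventually_ge_atTop (|C| / c₄))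
    filter_upwards [e1, eventually_ge_atTop 4, eventually_ge_atTop (8 * C₆), eventually_gt_atTop (2 * r₀)] with x hx1 hx2 hx3 hx4 y hy hyd
    obtain ⟨k, w, hw, hyk, hk1, hk2⟩ := htube q F z hF hz y hyd
    rw [mem_closedBall, dist_eq_norm] at hy
    have h1 : 3 / 4 * x ≤ y.re := by
      have h2 := (abs_le.1 ((Complex.abs_re_le_norm (y - x)).trans hy)).1
      rw [Complex.sub_re, Complex.ofReal_re] at h2
      linarith
    have h2 : ‖y‖ ≤ x + x / 4 := by
      have h3 := norm_add_le (y - x) (x : ℂ)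
      rw [sub_add_cancel, Complex.norm_real, Real.norm_of_nonneg (by linarith)] at h3
      linarith
    have h3 : 3 / 4 * x ≤ ‖y‖ := h1.trans ((le_abs_self _).trans (Complex.abs_re_le_norm y))
    -- `k` is positive
    have hkpos : 0 ≤ k := by
      by_contra hneg
      push Not at hneg
      obtain ⟨n, hn⟩ := Int.eq_ofNat_of_zero_le (a := -k) (by omega)
      have h4 := Pool.Agent.SR3.G.chain_re hz k n
      have h5 : k + (n : ℤ) = 0 := by omega
      rw [h5, hz.zero, Complex.zero_re] at h4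
      have h6 : y.re = (z k).re + w.re := by rw [hyk, Complex.add_re]
      have h7 : w.re ≤ r₀ := (le_abs_self _).trans ((Complex.abs_re_le_norm w).trans hw)
      have h8 : (0 : ℝ) ≤ n := Nat.cast_nonneg n
      linarith
    obtain ⟨n, rfl⟩ := Int.eq_ofNat_of_zero_le hkpos
    have h4 := hch n w (hw.trans hr0)
    rw [← hyk] at h4
    refine h4.trans (Real.exp_le_exp.2 ?_)
    simp only [Int.cast_natCast, Nat.abs_cast] at hk1 hk2
    -- lower and upper bounds of `n`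
    have h5 : x / (2 * C₆) ≤ n := by
      rw [div_le_iff₀ (by positivity)]
      have h6 : C₀ * (1 + (n : ℝ)) ≤ C₆ * (1 + n) := mul_le_mul_of_nonneg_right (by linarith) (by positivity)
      have h7 : 0 ≤ C₆ * (n : ℝ) := by positivity
      have h8 : C₆ * (1 + (n : ℝ)) = C₆ + C₆ * n := by ring
      have h9 : (n : ℝ) * (2 * C₆) = 2 * (C₆ * n) := by ring
      rw [h9]
      linarith
    have h6 : (n : ℝ) ≤ 2 * x := by
      have : C₀ ≤ x / 8 := by linarith
      linarith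
    have hn0 : (0 : ℝ) ≤ n := Nat.cast_nonneg n
    have h7 : Real.log (2 + n) ≤ 2 * Real.log (2 + x) := by
      have h8 : 2 + (n : ℝ) ≤ (2 + x) ^ 2 := by
        have e : (2 + x) ^ 2 = 4 + 4 * x + x ^ 2 := by ring
        have h9 := sq_nonneg x
        linarith
      calc Real.log (2 + n) ≤ Real.log ((2 + x) ^ 2) := Real.log_le_log (by positivity) h8
        _ = 2 * Real.log (2 + x) := by rw [Real.log_pow]; norm_num
    have h8 : 0 < Real.log (2 + n) := Real.log_pos (by linarith)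
    have h8' : 0 < Real.log (2 + x) := Real.log_pos (by linarith)
    have h9 : x / (2 * C₆) / (2 * Real.log (2 + x)) ≤ n / Real.log (2 + n) :=
      div_le_div₀ hn0 h5 h8 h7
    have h10 : |C| ≤ c₄ * (x / Real.log (2 + x)) := by
      rw [div_le_iff₀ hc40] at hx1
      linarith
    have h11 : 4 * c₄ * (x / Real.log (2 + x)) = c * (x / (2 * C₆) / (2 * Real.log (2 + x))) := by
      rw [hc4]
      field_simp
      norm_num
    have h12 := mul_le_mul_of_nonneg_left h9 hc.le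
    have h13 := le_abs_self C
    have h14 : 0 ≤ c₄ * (x / Real.log (2 + x)) := (abs_nonneg C).trans h10
    linarith
  -- large `x`
  have hlarge : ∀ᶠ x : ℝ in atTop, ‖H x - F x‖ ≤ Real.exp (-(c₄ / 2 * (x / Real.log (2 + x)))) := by
    have e2 := Pool.Agent.SR3.G.eventually_pw_le (γ := γ) (ε := Real.log 2 / (4 * (D₁ + 1))) hγ1 (by positivity)
    filter_upwards [hsmall, first_arith hc40 hK hQ10 hD1' hγ1, e2, eventually_ge_atTop 4] with x hx1 hx2 hx3 hx4
    have hx0 : 0 < x := by linarith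
    have hl' : 0 < Real.log (2 + x) := Real.log_pos (by linarith)
    have hl : Real.log 2 ≤ Real.log (2 + x) := Real.log_le_log (by norm_num) (by linarith)
    have hl2 : 0 < Real.log 2 := Real.log_pos (by norm_num)
    have hd := hdist x hx0.le
    have h1 : infDist (x : ℂ) (Gd rho δ F) ≤ x / 4 := by
      refine hd.trans ?_
      have h2 : x / Real.log (2 + x) ≤ x / Real.log 2 := div_le_div_of_nonneg_left hx0.le hl2 hl
      have h3 : D₁ * Pool.Agent.SR3.G.pw γ x ≤ (D₁ + 1) * (Real.log 2 / (4 * (D₁ + 1)) * (x / Real.log 2)) :=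
        mul_le_mul (by linarith) (hx3.trans (mul_le_mul_of_nonneg_left h2 (by positivity))) (Real.rpow_nonneg (by linarith) _) (by linarith)
      refine h3.trans (le_of_eq ?_)
      field_simp
    have h4 := hpass _ _ (hpot q F hF.cl) U hUd x (x / 4) (c₄ * (x / Real.log (2 + x))) Q₁ (by linarith) h1 (by positivity)
      hx1 (hUle x hx4)
    refine h4.trans (Real.exp_le_exp.2 (le_trans ?_ hx2))
    have h5 : 1 + infDist (x : ℂ) (Gd rho δ F) ≤ 1 + D₁ * Pool.Agent.SR3.G.pw γ x := by linarith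
    have h6 : 0 ≤ K * (c₄ * (x / Real.log (2 + x)) + Q₁ * (x / 4)) := by positivity
    have h7 := div_le_div_of_nonneg_right (mul_le_mul_of_nonneg_left h5 h6) (by linarith : (0 : ℝ) ≤ x / 4)
    linarith
  obtain ⟨x₀, hx₀⟩ := eventually_atTop.1 hlarge
  -- small `x`
  set c' : ℝ := c₄ / 2 with hc'
  have hcont : ContinuousOn (fun x : ℝ => ‖H x - F x‖ * Real.exp (c' * (x / Real.log (2 + x)))) (Set.Icc 0 (max x₀ 0)) := by
    have h1 : Continuous fun x : ℝ => ‖H x - F x‖ :=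
      ((hHd.continuous.comp Complex.continuous_ofReal).sub (hFd.continuous.comp Complex.continuous_ofReal)).norm
    refine h1.continuousOn.mul (Real.continuous_exp.comp_continuousOn (continuousOn_const.mul ?_))
    refine continuousOn_id.div ?_ fun x hx => (Real.log_pos (by linarith [hx.1])).ne'
    exact ContinuousOn.log (continuousOn_const.add continuousOn_id) fun x hx => by
      have h2 := hx.1
      have h3 : (0 : ℝ) < 2 + x := by linarith
      exact h3.ne'
  obtain ⟨C₇, hC₇⟩ := (isCompact_Icc.image_of_continuousOn hcont).isBounded.subset_closedBall 0 |>.imp fun C₇ h => h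
  refine ⟨c', Real.log (max C₇ 1), by positivity, fun x hx => ?_⟩
  have hm : (0 : ℝ) < max C₇ 1 := lt_of_lt_of_le one_pos (le_max_right _ _)
  rw [Real.exp_sub, Real.exp_log hm, le_div_iff₀ (Real.exp_pos _)]
  by_cases hxx : x₀ ≤ x
  · have h1 := hx₀ x hxx
    have h2 := mul_le_mul_of_nonneg_right h1 (Real.exp_pos (c' * (x / Real.log (2 + x)))).le
    rw [← Real.exp_add, neg_add_cancel, Real.exp_zero] at h2
    exact h2.trans (le_max_right _ _)
  · have h1 : x ∈ Set.Icc 0 (max x₀ 0) := ⟨hx, (not_le.1 hxx).le.trans (le_max_left _ _)⟩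
    have h2 := hC₇ (Set.mem_image_of_mem _ h1)
    rw [mem_closedBall_zero_iff, Real.norm_eq_abs] at h2
    exact ((le_abs_self _).trans h2).trans (le_max_left _ _)

end Pool.Agent.SR3.F
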